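import Pool.Agent.Run7.h802.FH.Iface

/-! Piece RAD of project FH (helper802): the values of a nonconstant polynomial rarely have a small
radical, from `S_RADN`. -/

set_option autoImplicit false

namespace Pool.Agent.Run7.h799.FH

open MvPolynomial Pool.Agent.Run7.h802.HP Pool.Agent.Run7.h802.FH Finset

/-- bound for the values of a polynomial -/
theorem eval_bound {σ : Type} [Fintype σ] (h : MvPolynomial σ ℤ) (x : σ → ℤ) (B : ℤ) (hB : 1 ≤ B)
    (hx : ∀ i, |x i| ≤ B) :
    |eval x h| ≤ (∑ m ∈ h.support, |coeff m h|) * B ^ h.totalDegree := by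
  rw [eval_eq', Finset.sum_mul]
  refine (Finset.abs_sum_le_sum_abs _ _).trans (Finset.sum_le_sum ?_)
  intro m hm
  rw [abs_mul]
  refine mul_le_mul_of_nonneg_left ?_ (abs_nonneg _)
  rw [Finset.abs_prod]
  calc ∏ i, |x i ^ m i| ≤ ∏ i, B ^ m i := by
        refine Finset.prod_le_prod (fun i _ => abs_nonneg _) (fun i _ => ?_)
        rw [abs_pow]
        exact pow_le_pow_left₀ (abs_nonneg _) (hx i) _
    _ = B ^ ∑ i, m i := by rw [Finset.prod_pow_eq_pow_sum]
    _ ≤ B ^ h.totalDegree := by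
        refine pow_le_pow_right₀ hB ?_
        have := le_totalDegree hm
        rwa [Finsupp.sum_fintype _ _ (fun _ => rfl)] at this

/-- Schwartz--Zippel on the box in a residue class, in the variables `Fin N`. -/
theorem sz_fin {N : ℕ} (p : MvPolynomial (Fin N) ℤ) (hp : p ≠ 0) (Q : ℕ) (hQ : 0 < Q)
    (c : Fin N → ℤ) (H : ℕ) :
    #{b ∈ Fintype.piFinset fun _ : Fin N => Finset.Icc (-(H : ℤ)) H |
      eval (fun i => c i + Q * b i) p = 0} * (2 * H + 1) ≤
        (∑ i, p.degreeOf i) * (2 * H + 1) ^ N := by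
  classical
  let S : Fin N → Finset ℤ := fun i => (Finset.Icc (-(H : ℤ)) H).image (fun t => c i + Q * t)
  have hinj : ∀ i, Function.Injective (fun t : ℤ => c i + Q * t) := by
    intro i a b hab
    have hQ' : (Q : ℤ) ≠ 0 := by exact_mod_cast hQ.ne'
    have : (Q : ℤ) * a = Q * b := by
      have := hab
      simp only at this
      linarith
    exact mul_left_cancel₀ hQ' this
  have hcard : ∀ i, #(S i) = 2 * H + 1 := by
    intro i
    rw [Finset.card_image_of_injective _ (hinj i), Int.card_Icc]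
    omega
  have key := schwartz_zippel_sum_degreeOf hp S
  simp only [hcard] at key
  rw [Finset.prod_const, Finset.card_univ, Fintype.card_fin] at key
  have hle : #{b ∈ Fintype.piFinset fun _ : Fin N => Finset.Icc (-(H : ℤ)) H |
      eval (fun i => c i + Q * b i) p = 0} ≤ #{x ∈ Fintype.piFinset S | eval x p = 0} := by
    refine Finset.card_le_card_of_injOn (fun b i => c i + Q * b i) ?_ ?_
    · intro b hb
      simp only [Finset.coe_filter, Set.mem_ofPred_eq, Fintype.mem_piFinset] at hb ⊢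
      refine ⟨fun i => ?_, hb.2⟩
      exact Finset.mem_image.2 ⟨b i, hb.1 i, rfl⟩
    · intro a _ b _ hab
      funext i
      exact hinj i (congrFun hab i)
  have hpos : (0 : ℚ≥0) < ((2 * H + 1 : ℕ) : ℚ≥0) := by positivity
  have h2 : ((#{x ∈ Fintype.piFinset S | eval x p = 0} : ℕ) : ℚ≥0) * ((2 * H + 1 : ℕ) : ℚ≥0) ≤
      ((∑ i, p.degreeOf i : ℕ) : ℚ≥0) * ((2 * H + 1 : ℕ) : ℚ≥0) ^ N := by
    have h3 : ∑ i, ((p.degreeOf i : ℚ≥0) / ((2 * H + 1 : ℕ) : ℚ≥0)) =
        ((∑ i, p.degreeOf i : ℕ) : ℚ≥0) / ((2 * H + 1 : ℕ) : ℚ≥0) := by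
      rw [Nat.cast_sum, Finset.sum_div]
    rw [h3, div_le_iff₀ (by positivity)] at key
    rw [div_mul_eq_mul_div, le_div_iff₀ hpos] at key
    exact key
  have h4 : #{x ∈ Fintype.piFinset S | eval x p = 0} * (2 * H + 1) ≤
      (∑ i, p.degreeOf i) * (2 * H + 1) ^ N := by
    exact_mod_cast h2
  exact (Nat.mul_le_mul_right _ hle).trans h4

/-- Each value is taken rarely. -/
theorem sz_val {σ : Type} [Fintype σ] [DecidableEq σ] (h : MvPolynomial σ ℤ)
    (hc : ∀ c : ℤ, h ≠ C c) (Q : ℕ) (hQ : 0 < Q) (c : σ → ℤ) :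
    ∃ D : ℕ, ∀ (H : ℕ) (v : ℤ),
      #{b ∈ Fintype.piFinset fun _ : σ => Finset.Icc (-(H : ℤ)) H |
        eval (fun i => c i + Q * b i) h = v} * (2 * H + 1) ≤
        D * (2 * H + 1) ^ Fintype.card σ := by
  classical
  let e := Fintype.equivFin σ
  let h1 : MvPolynomial (Fin (Fintype.card σ)) ℤ := rename e h
  refine ⟨∑ i, h1.degreeOf i, fun H v => ?_⟩
  have hne : h1 - C v ≠ 0 := by
    intro h0
    have h2 : rename e h = rename e (C v) := by
      rw [rename_C]; exact sub_eq_zero.1 h0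
    exact hc v (rename_injective e e.injective h2)
  have key := sz_fin (h1 - C v) hne Q hQ (fun i => c (e.symm i)) H
  have hdeg : ∑ i, (h1 - C v).degreeOf i ≤ ∑ i, h1.degreeOf i := by
    refine Finset.sum_le_sum fun i _ => ?_
    rw [sub_eq_add_neg, ← C_neg]
    refine (degreeOf_add_le _ _ _).trans ?_
    rw [degreeOf_C]
    simp
  have hle : #{b ∈ Fintype.piFinset fun _ : σ => Finset.Icc (-(H : ℤ)) H |
        eval (fun i => c i + Q * b i) h = v} ≤
      #{b ∈ Fintype.piFinset fun _ : Fin (Fintype.card σ) => Finset.Icc (-(H : ℤ)) H |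
      eval (fun i => c (e.symm i) + Q * b i) (h1 - C v) = 0} := by
    refine Finset.card_le_card_of_injOn (fun b i => b (e.symm i)) ?_ ?_
    · intro b hb
      simp only [Finset.coe_filter, Set.mem_ofPred_eq, Fintype.mem_piFinset] at hb ⊢
      refine ⟨fun i => hb.1 _, ?_⟩
      rw [map_sub, eval_C, eval_rename]
      have : ((fun i => c (e.symm i) + (Q : ℤ) * b (e.symm i)) ∘ e) =
          fun i => c i + (Q : ℤ) * b i := by
        funext i
        simp
      rw [this, hb.2, sub_self]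
    · intro a _ b _ hab
      funext i
      have := congrFun hab (e i)
      simpa using this
  calc _ ≤ _ := Nat.mul_le_mul_right _ hle
    _ ≤ _ := key
    _ ≤ _ := Nat.mul_le_mul_right _ hdeg

theorem rad_neg (z : ℤ) : rad (-z) = rad z := by
  unfold rad
  rw [Int.natAbs_neg]

theorem rad_natAbs (z : ℤ) : rad (z.natAbs : ℤ) = rad z := by
  unfold rad
  rw [Int.natAbs_natCast]

/-- the number of integers with small radical, both signs and zero -/
theorem small_card (X Y : ℕ) (V : Finset ℤ) (hV : ∀ v ∈ V, v.natAbs ≤ X ∧ rad v ≤ Y) :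
    #V ≤ 1 + 2 * Nat.card {n : ℕ // 1 ≤ n ∧ n ≤ X ∧ rad n ≤ Y} := by
  classical
  let W : Finset ℕ := (Finset.Icc 1 X).filter (fun n => rad (n : ℤ) ≤ Y)
  have hW : Nat.card {n : ℕ // 1 ≤ n ∧ n ≤ X ∧ rad n ≤ Y} = #W := by
    have : {n : ℕ | 1 ≤ n ∧ n ≤ X ∧ rad n ≤ Y} = (W : Set ℕ) := by
      ext n
      simp [W, and_assoc]
    have h2 : Nat.card {n : ℕ // 1 ≤ n ∧ n ≤ X ∧ rad n ≤ Y} =
        Set.ncard {n : ℕ | 1 ≤ n ∧ n ≤ X ∧ rad n ≤ Y} := rfl
    rw [h2, this, Set.ncard_coe_finset]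
  rw [hW]
  have hsub : V ⊆ {0} ∪ (W.image (fun n : ℕ => (n : ℤ)) ∪ W.image (fun n : ℕ => -(n : ℤ))) := by
    intro v hv
    obtain ⟨h1, h2⟩ := hV v hv
    rcases eq_or_ne v 0 with h0 | h0
    · simp [h0]
    · have hmem : v.natAbs ∈ W := by
        simp only [W, Finset.mem_filter, Finset.mem_Icc]
        refine ⟨⟨?_, h1⟩, ?_⟩
        · exact Int.natAbs_pos.2 h0
        · rw [rad_natAbs]; exact h2
      rcases Int.natAbs_eq v with h | h
      · refine Finset.mem_union_right _ (Finset.mem_union_left _ ?_)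
        exact Finset.mem_image.2 ⟨_, hmem, h.symm⟩
      · refine Finset.mem_union_right _ (Finset.mem_union_right _ ?_)
        exact Finset.mem_image.2 ⟨_, hmem, h.symm⟩
  calc #V ≤ _ := Finset.card_le_card hsub
    _ ≤ _ := Finset.card_union_le _ _
    _ ≤ 1 + (#W + #W) := by
        refine Nat.add_le_add (by simp) ((Finset.card_union_le _ _).trans ?_)
        exact Nat.add_le_add Finset.card_image_le Finset.card_image_le
    _ = _ := by ring

theorem t_RAD : S_RADN → S_RAD := by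
  classical
  intro hRADN σ _ _ h hc δ hδ Q hQ c
  -- reduce to exponent `d ≤ 1`
  set d : ℝ := min δ 1 with hd
  have hd0 : 0 < d := lt_min hδ one_pos
  have hd1 : d ≤ 1 := min_le_right _ _
  have hdδ : d ≤ δ := min_le_left _ _
  obtain ⟨D, hD⟩ := sz_val h hc Q hQ c
  set T : ℕ := h.totalDegree with hT
  set η' : ℝ := d / (2 * (T + 1)) with hη'
  have hη'0 : 0 < η' := by positivity
  obtain ⟨C2, hC2⟩ := hRADN η' hη'0
  have hN : 1 ≤ Fintype.card σ := by
    by_contra hN
    have : IsEmpty σ := by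
      rw [← Fintype.card_eq_zero_iff]; omega
    exact hc _ (eq_C_of_isEmpty h)
  -- constants
  let A : ℕ := (∑ i, (c i).natAbs) + Q
  have hA : 1 ≤ A := by simp only [A]; omega
  let L : ℕ := 1 + ∑ m ∈ h.support, (coeff m h).natAbs
  have hL : 1 ≤ L := by simp only [L]; omega
  refine ⟨D * 3 ^ (Fintype.card σ - 1) * (1 + 2 * (|C2| * ((L * A ^ T : ℕ) : ℝ) ^ η')), d / 2,
    by positivity, fun H hH => ?_⟩
  have hHr : (1 : ℝ) ≤ H := by exact_mod_cast hH
  have hH0 : (0 : ℝ) < H := by linarith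
  let X : ℕ := L * A ^ T * H ^ T
  let Y : ℕ := ⌊(H : ℝ) ^ (1 - d)⌋₊
  have hY1 : 1 ≤ Y := by
    refine Nat.le_floor ?_
    rw [Nat.cast_one]
    exact Real.one_le_rpow hHr (by linarith)
  have hYle : (Y : ℝ) ≤ (H : ℝ) ^ (1 - d) := Nat.floor_le (by positivity)
  have hX1 : 1 ≤ X := by
    have : 0 < X := by positivity
    exact this
  -- the finset of the bad b
  let box := Fintype.piFinset fun _ : σ => Finset.Icc (-(H : ℤ)) H
  let val : (σ → ℤ) → ℤ := fun b => eval (fun i => c i + Q * b i) h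
  let bad := box.filter (fun b => (rad (val b) : ℝ) < (H : ℝ) ^ (1 - δ))
  have hcard : Nat.card {b : σ → ℤ // (∀ i, |b i| ≤ H) ∧
      (rad (eval (fun i => c i + Q * b i) h) : ℝ) < (H : ℝ) ^ (1 - δ)} = #bad := by
    have h1 : {b : σ → ℤ | (∀ i, |b i| ≤ H) ∧
      (rad (eval (fun i => c i + Q * b i) h) : ℝ) < (H : ℝ) ^ (1 - δ)} = (bad : Set (σ → ℤ)) := by
      ext b
      simp [bad, box, val, abs_le]
    have h2 : Nat.card {b : σ → ℤ // (∀ i, |b i| ≤ H) ∧
      (rad (eval (fun i => c i + Q * b i) h) : ℝ) < (H : ℝ) ^ (1 - δ)} =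
        Set.ncard {b : σ → ℤ | (∀ i, |b i| ≤ H) ∧
      (rad (eval (fun i => c i + Q * b i) h) : ℝ) < (H : ℝ) ^ (1 - δ)} := rfl
    rw [h2, h1, Set.ncard_coe_finset]
  rw [hcard]
  -- the values
  have hvals : ∀ v ∈ bad.image val, v.natAbs ≤ X ∧ rad v ≤ Y := by
    intro v hv
    obtain ⟨b, hb, rfl⟩ := Finset.mem_image.1 hv
    have hb' := Finset.mem_filter.1 hb
    have hbox : ∀ i, |b i| ≤ (H : ℤ) := by
      intro i
      have := Fintype.mem_piFinset.1 hb'.1 i
      rw [Finset.mem_Icc] at this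
      exact abs_le.2 this
    constructor
    · have hx : ∀ i, |c i + (Q : ℤ) * b i| ≤ ((A * H : ℕ) : ℤ) := by
        intro i
        have h1 : |c i| ≤ ((∑ j, (c j).natAbs : ℕ) : ℤ) := by
          have : (c i).natAbs ≤ ∑ j, (c j).natAbs :=
            Finset.single_le_sum (f := fun j => (c j).natAbs) (fun j _ => Nat.zero_le _)
              (Finset.mem_univ i)
          rw [Int.abs_eq_natAbs]
          exact_mod_cast this
        have h2 : |(Q : ℤ) * b i| ≤ Q * H := by
          rw [abs_mul, Nat.abs_cast]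
          exact mul_le_mul_of_nonneg_left (hbox i) (by positivity)
        have h3 : ((∑ j, (c j).natAbs : ℕ) : ℤ) ≤ ((∑ j, (c j).natAbs : ℕ) : ℤ) * H := by
          have h4 : (1 : ℤ) ≤ H := by exact_mod_cast hH
          have h5 : (0 : ℤ) ≤ ((∑ j, (c j).natAbs : ℕ) : ℤ) := by positivity
          nlinarith
        calc |c i + (Q : ℤ) * b i| ≤ |c i| + |(Q : ℤ) * b i| := abs_add_le _ _
          _ ≤ ((∑ j, (c j).natAbs : ℕ) : ℤ) * H + Q * H := by linarith
          _ = ((A * H : ℕ) : ℤ) := by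
            simp only [A]
            push_cast
            ring
      have hAH : (1 : ℤ) ≤ ((A * H : ℕ) : ℤ) := by
        have : 1 ≤ A * H := Nat.mul_pos hA hH
        exact_mod_cast this
      have h3 := eval_bound h (fun i => c i + (Q : ℤ) * b i) _ hAH hx
      have h4 : ((∑ m ∈ h.support, |coeff m h|) : ℤ) ≤ (L : ℤ) := by
        have h6 : (L : ℤ) = 1 + ∑ m ∈ h.support, |coeff m h| := by
          simp [L]
        rw [h6]
        linarith
      have h5 : |val b| ≤ ((X : ℕ) : ℤ) := by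
        calc |val b| ≤ _ := h3
          _ ≤ (L : ℤ) * ((A * H : ℕ) : ℤ) ^ h.totalDegree :=
            mul_le_mul_of_nonneg_right h4 (by positivity)
          _ = ((X : ℕ) : ℤ) := by
            simp only [X, hT]
            push_cast
            ring
      rw [Int.abs_eq_natAbs] at h5
      exact_mod_cast h5
    · have h1 : (rad (val b) : ℝ) < (H : ℝ) ^ (1 - δ) := hb'.2
      have h2 : (H : ℝ) ^ (1 - δ) ≤ (H : ℝ) ^ (1 - d) :=
        Real.rpow_le_rpow_of_exponent_le hHr (by linarith)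
      exact Nat.le_floor (h1.le.trans h2)
  have hV := small_card X Y (bad.image val) hvals
  have hfib : #bad * (2 * H + 1) ≤ D * (2 * H + 1) ^ Fintype.card σ * #(bad.image val) := by
    have h1 : #bad = ∑ v ∈ bad.image val, #{b ∈ bad | val b = v} :=
      Finset.card_eq_sum_card_image val bad
    rw [h1, Finset.sum_mul]
    calc ∑ v ∈ bad.image val, #{b ∈ bad | val b = v} * (2 * H + 1) ≤
        ∑ v ∈ bad.image val, D * (2 * H + 1) ^ Fintype.card σ := by
          refine Finset.sum_le_sum fun v _ => ?_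
          refine le_trans (Nat.mul_le_mul_right _ (Finset.card_le_card ?_)) (hD H v)
          intro b hb
          rw [Finset.mem_filter] at hb ⊢
          exact ⟨(Finset.mem_filter.1 hb.1).1, hb.2⟩
      _ = _ := by rw [Finset.sum_const, smul_eq_mul, mul_comm]
  have hcount := hC2 X Y hX1 hY1
  set cnt : ℕ := Nat.card {n : ℕ // 1 ≤ n ∧ n ≤ X ∧ rad n ≤ Y} with hcnt
  obtain ⟨M, hM⟩ : ∃ M, Fintype.card σ = M + 1 := ⟨Fintype.card σ - 1, by omega⟩
  have hbadnat : #bad ≤ D * (2 * H + 1) ^ M * (1 + 2 * cnt) := by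
    have h1 : #bad * (2 * H + 1) ≤ (D * (2 * H + 1) ^ M * (1 + 2 * cnt)) * (2 * H + 1) := by
      calc #bad * (2 * H + 1) ≤ D * (2 * H + 1) ^ Fintype.card σ * #(bad.image val) := hfib
        _ ≤ D * (2 * H + 1) ^ Fintype.card σ * (1 + 2 * cnt) := Nat.mul_le_mul_left _ hV
        _ = _ := by rw [hM, pow_succ]; ring
    exact Nat.le_of_mul_le_mul_right h1 (by omega)
  have hbad : (#bad : ℝ) ≤ D * (2 * H + 1) ^ M * (1 + 2 * (cnt : ℝ)) := by
    exact_mod_cast hbadnat
  have hcnt2 : (cnt : ℝ) ≤ |C2| * ((L * A ^ T : ℕ) : ℝ) ^ η' * (H : ℝ) ^ (1 - d / 2) := by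
    have hXr : (X : ℝ) ^ η' ≤ ((L * A ^ T : ℕ) : ℝ) ^ η' * (H : ℝ) ^ (d / 2) := by
      have h1 : (X : ℝ) = ((L * A ^ T : ℕ) : ℝ) * (H : ℝ) ^ (T : ℝ) := by
        simp only [X]
        rw [Real.rpow_natCast]
        push_cast
        ring
      rw [h1, Real.mul_rpow (by positivity) (by positivity), ← Real.rpow_mul hH0.le]
      refine mul_le_mul_of_nonneg_left ?_ (by positivity)
      refine Real.rpow_le_rpow_of_exponent_le hHr ?_
      rw [hη', mul_div_assoc', div_le_div_iff₀ (by positivity) two_pos]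
      nlinarith
    calc (cnt : ℝ) ≤ C2 * Y * (X : ℝ) ^ η' := hcount
      _ ≤ |C2| * Y * (X : ℝ) ^ η' := by
          refine mul_le_mul_of_nonneg_right (mul_le_mul_of_nonneg_right (le_abs_self _) ?_) ?_ <;>
            positivity
      _ ≤ |C2| * (H : ℝ) ^ (1 - d) * (((L * A ^ T : ℕ) : ℝ) ^ η' * (H : ℝ) ^ (d / 2)) := by
          refine mul_le_mul (mul_le_mul_of_nonneg_left hYle (abs_nonneg _)) hXr ?_ ?_ <;> positivity
      _ = |C2| * ((L * A ^ T : ℕ) : ℝ) ^ η' * ((H : ℝ) ^ (1 - d) * (H : ℝ) ^ (d / 2)) := by ring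
      _ = _ := by
          rw [← Real.rpow_add hH0]
          congr 2
          ring
  have hone : (1 : ℝ) ≤ (H : ℝ) ^ (1 - d / 2) := Real.one_le_rpow hHr (by linarith)
  have hpow : ((2 : ℝ) * H + 1) ^ M ≤ 3 ^ M * (H : ℝ) ^ M := by
    rw [← mul_pow]
    exact pow_le_pow_left₀ (by positivity) (by linarith) _
  have hMM : Fintype.card σ - 1 = M := by omega
  rw [hMM]
  calc (#bad : ℝ) ≤ D * (2 * H + 1) ^ M * (1 + 2 * (cnt : ℝ)) := hbad
    _ ≤ D * (3 ^ M * (H : ℝ) ^ M) *
        ((1 + 2 * (|C2| * ((L * A ^ T : ℕ) : ℝ) ^ η')) * (H : ℝ) ^ (1 - d / 2)) := by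
        refine mul_le_mul (mul_le_mul_of_nonneg_left hpow (by positivity)) ?_ (by positivity)
          (by positivity)
        nlinarith
    _ = D * 3 ^ M * (1 + 2 * (|C2| * ((L * A ^ T : ℕ) : ℝ) ^ η')) *
        ((H : ℝ) ^ M * (H : ℝ) ^ (1 - d / 2)) := by ring
    _ = _ := by
        congr 1
        rw [← Real.rpow_natCast, ← Real.rpow_add hH0, hM]
        congr 1
        push_cast
        ring

end Pool.Agent.Run7.h799.FH
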